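import Pool.Agent.X34.CY.Main
import Pool.Agent.X21.CY.AN2
import Pool.Agent.X193.CY.Grp
import Pool.Agent.X207.CYL1
import Pool.Agent.X224.CY.Cd
import Pool.Agent.X332.CY.LO
import Pool.Agent.X25.CY.BG
import Pool.Agent.X283.CY.An1
import Pool.Agent.X153.CY.CU
import Pool.Agent.X32.CY.AN0
import Pool.Agent.X69.CY.SM

/-! MP_6efeb4_pr, Q2: the typical distance of random Cayley graphs of Abelian groups concentrates at
`D(k, n) = k n^(1/k) / e` (directed) and `D(k, n) = k n^(1/k) / (2 e)` (undirected), for every sequence with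
`1 ≪ k ≪ log |G|` and `k - d(G) ≥ c k`. -/

set_option autoImplicit false

namespace Pool.Agent.Results.MP_6efeb4_pr.TypicalDistance

open Filter Topology

/-- `d(G)`: the minimal size of a generating set of `G`. -/
noncomputable def genRank (G : Type) [AddCommGroup G] : ℕ :=
  sInf {m : ℕ | ∃ S : Finset G, S.card = m ∧ AddSubgroup.closure (S : Set G) = ⊤}

/-- There is a walk of length `m` from `0` to `u` in the Cayley graph `G(z)`: each step adds some `z j`, or, in the
undirected graph (`directed = false`), adds or subtracts some `z j`. -/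
def IsWalk (directed : Bool) {G : Type} [AddCommGroup G] {k : ℕ} (z : Fin k → G) (u : G) (m : ℕ) : Prop :=
  ∃ p : ℕ → G, p 0 = 0 ∧ p m = u ∧
    ∀ i < m, ∃ j, p (i + 1) = p i + z j ∨ (directed = false ∧ p (i + 1) = p i - z j)

/-- The graph distance `m` from `0` to `u` in `G(z)` (the least length of a walk) exists and `|m / D - 1| ≤ ε`. -/
def DistNear (directed : Bool) {G : Type} [AddCommGroup G] {k : ℕ} (z : Fin k → G) (u : G) (D ε : ℝ) : Prop :=
  ∃ m : ℕ, IsLeast {m | IsWalk directed z u m} m ∧ |(m : ℝ) / D - 1| ≤ ε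

/-- The probability, over `Z` uniform in `G ^ k` and `U` uniform in `G`, independent, that the distance from `0` to
`U` in `G(Z)` is infinite or `|dist / D - 1| > ε`. -/
noncomputable def failProb (directed : Bool) (G : Type) [AddCommGroup G] (k : ℕ) (D ε : ℝ) : ℝ :=
  (Nat.card {zu : (Fin k → G) × G // ¬ DistNear directed zu.1 zu.2 D ε} : ℝ) / Nat.card ((Fin k → G) × G)

/-- The deterministic value: `k n^(1/k) / e` for the directed graph, `k n^(1/k) / (2 e)` for the undirected one. -/
noncomputable def typDist (directed : Bool) (k n : ℕ) : ℝ :=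
  k * (n : ℝ) ^ (1 / (k : ℝ)) / ((if directed then 1 else 2) * Real.exp 1)

/-- For both versions: for every sequence of finite Abelian groups `G N` and `k N` with `|G N| → ∞`, `k → ∞`,
`k / log |G| → 0` and `k - d(G) ≥ c k` eventually for some `c > 0`, and all `ε > 0`, the probability that the distance
from `0` to `U` is not within a factor `1 ± ε` of `typDist` tends to `0`. -/
theorem result : ∀ directed : Bool, ∀ (G : ℕ → Type) [∀ N, AddCommGroup (G N)] [∀ N, Finite (G N)] (k : ℕ → ℕ),
    Tendsto (fun N => Nat.card (G N)) atTop atTop →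
    Tendsto k atTop atTop →
    Tendsto (fun N => (k N : ℝ) / Real.log (Nat.card (G N))) atTop (𝓝 0) →
    (∃ c : ℝ, 0 < c ∧ ∀ᶠ N in atTop, c * (k N : ℝ) ≤ (k N : ℝ) - (genRank (G N) : ℝ)) →
    ∀ ε : ℝ, 0 < ε →
      Tendsto (fun N => failProb directed (G N) (k N) (typDist directed (k N) (Nat.card (G N))) ε) atTop (𝓝 0) := by
  intro directed G _ _ k hG hk hlog hd ε hε
  obtain ⟨c, hc, hd⟩ := hd
  exact Pool.Agent.X34.CY.main_of Pool.Agent.X193.CY.t_GRP Pool.Agent.X69.CY.t_SM Pool.Agent.X207.CYL1.t_L1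
    Pool.Agent.X224.CY.Cd.t_CD Pool.Agent.X153.CY.t_CU Pool.Agent.X25.CY.t_BG
    (Pool.Agent.X34.CY.an_of Pool.Agent.X32.CY.t_AN0 Pool.Agent.X283.CY.t_AN1 Pool.Agent.X21.CY.t_AN2)
    Pool.Agent.X332.CY.t_LO directed G k c hc hk hlog hG hd ε hε

end Pool.Agent.Results.MP_6efeb4_pr.TypicalDistance
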